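import Mathlib

/-!
# Starshapedness from clear visibility of locally non-convex points (MP_ad2f8c_co)

A nonempty compact connected set `E` in `ℝ^d` is starshaped as soon as any `d + 1` of its locally
non-convex points are clearly visible from a common point of `E`.

Outline.  A compactness argument gives one radius `r` that serves for all `(d+1)`-tuples of LNC
points.  For an LNC point `x` let `A x` be the set of points of `E` that see all of `B_r(x) ∩ E`.
Helly's theorem gives a point `p` in every closed convex hull of `A x`.  Inside `B_r(x)` the set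
`E` is then closed under moving toward `p` (`flow_convex`).  So near each of its points `E` is
either convex or closed under moving toward `p` (`Good`).  A maximum principle (`lemT`) then shows:
if `[x, y]` and `[x, b]` lie in `E` with `b` on the segment from `x` to `p`, then `[b, y]` lies in
`E`.  Two consequences: `p` lies in `E`, and every point of `E` sees `p`.
-/

open Set Metric Filter Topology

namespace Helper823.Lnc

variable {V : Type*} [NormedAddCommGroup V] [NormedSpace ℝ V]

/-- `x` is a locally non-convex (LNC) point of `E`: a boundary point of `E` such that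
`B_r(x) ∩ E` fails to be convex for every `r > 0`. -/
def IsLNC (E : Set V) (x : V) : Prop :=
  x ∈ frontier E ∧ ∀ r > 0, ¬ Convex ℝ (ball x r ∩ E)

/-- `y ∈ E` sees `x ∈ E`: the closed segment joining them is contained in `E`. -/
def Sees (E : Set V) (y x : V) : Prop := y ∈ E ∧ x ∈ E ∧ segment ℝ y x ⊆ E

/-- `x` is clearly visible from `y`: for some `r > 0`, the point `y ∈ E` sees every point of
`B_r(x) ∩ E`. -/
def ClearlyVisible (E : Set V) (x y : V) : Prop :=
  y ∈ E ∧ ∃ r > 0, ∀ z ∈ ball x r ∩ E, Sees E y z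

/-- Property `C_n`: any `n` LNC points (not necessarily distinct) are all clearly visible from one
point of `E`. -/
def PropertyC (n : ℕ) (E : Set V) : Prop :=
  ∀ x : Fin n → V, (∀ i, IsLNC E (x i)) → ∃ y ∈ E, ∀ i, ClearlyVisible E (x i) y

/-- `E` is starshaped: some point of `E` sees every point of `E`. -/
def Starshaped (E : Set V) : Prop := ∃ p ∈ E, ∀ z ∈ E, Sees E p z

/-- Moving from points of `E` near `x` straight toward `p` stays in `E` as long as one stays in
the ball `ball x r`. -/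
def Flow (E : Set V) (p x : V) (r : ℝ) : Prop :=
  ∀ z ∈ ball x r ∩ E, ∀ t ∈ Icc (0 : ℝ) 1, z + t • (p - z) ∈ ball x r → z + t • (p - z) ∈ E

/-- Local property used throughout: near each point `E` is convex or flows toward `p`. -/
def Good (E : Set V) (p : V) : Prop :=
  ∀ w ∈ E, ∃ ρ > 0, Convex ℝ (ball w ρ ∩ E) ∨ Flow E p w ρ

lemma flow_convex {E : Set V} (hE : IsClosed E) (x : V) (r : ℝ) :
    Convex ℝ {p | Flow E p x r} := by
  intro y₁ h₁ y₂ h₂ a b ha hb hab z hz t ht htz
  set y := a • y₁ + b • y₂ with hy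
  set γ : ℝ → V := fun s => z + s • (y - z) with hγ
  have hγc : Continuous γ := by fun_prop
  have hball : ∀ s ∈ Icc 0 t, γ s ∈ ball x r := by
    intro s hs
    rcases eq_or_lt_of_le ht.1 with h0 | h0
    · have : s = 0 := le_antisymm (by rw [h0]; exact hs.2) hs.1
      simpa [hγ, this] using hz.1
    · have := (convex_ball x r) hz.1 htz (a := 1 - s / t) (b := s / t)
        (by rw [sub_nonneg, div_le_one h0]; exact hs.2) (by have := hs.1; positivity) (by ring)
      convert this using 1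
      simp only [hγ]
      have : s • (y - z) = (s / t) • (t • (y - z)) := by
        rw [smul_smul]; congr 1; field_simp
      rw [this]; module
  have key : Icc 0 t ⊆ {s | γ s ∈ E} := by
    apply IsClosed.Icc_subset_of_forall_mem_nhdsWithin
    · exact (hE.preimage hγc).inter isClosed_Icc
    · simpa [hγ] using hz.2
    · rintro s ⟨hsE, hs0, hst⟩
      have hs1 : 0 < 1 - s := by linarith [ht.2]
      set w := γ s with hw
      have hwball : w ∈ ball x r := hball s ⟨hs0, hst.le⟩
      have hcont : ContinuousAt (fun u : ℝ => w + ((u - s) / (1 - s) * a /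
          (1 - (u - s) / (1 - s) * b)) • (y₁ - w)) s := by
        have : (1 - (s - s) / (1 - s) * b) ≠ 0 := by simp
        fun_prop (disch := assumption)
      have hev : ∀ᶠ u in 𝓝 s, (w + ((u - s) / (1 - s) * a /
          (1 - (u - s) / (1 - s) * b)) • (y₁ - w)) ∈ ball x r := by
        apply hcont.eventually_mem
        apply isOpen_ball.mem_nhds
        simpa using hwball
      have hlt : ∀ᶠ u in 𝓝[>] s, u < t := by
        exact eventually_nhdsWithin_of_eventually_nhds (eventually_lt_nhds hst)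
      filter_upwards [eventually_nhdsWithin_of_eventually_nhds hev, hlt, self_mem_nhdsWithin]
        with u hu1 hu2 hu3
      simp only [mem_Ioi] at hu3
      set τ := (u - s) / (1 - s) with hτ
      have hτ0 : 0 ≤ τ := by apply div_nonneg <;> linarith
      have hτ1 : τ < 1 := by rw [hτ, div_lt_one hs1]; linarith [ht.2]
      have hb1 : b ≤ 1 := by linarith
      have ha1 : a ≤ 1 := by linarith
      have hτb : τ * b < 1 := by nlinarith
      have hpos : 0 < 1 - τ * b := by linarith
      have hz₁E : (w + (τ * a / (1 - τ * b)) • (y₁ - w)) ∈ E := by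
        apply h₁ w ⟨hwball, hsE⟩ _ _ hu1
        constructor
        · positivity
        · rw [div_le_one hpos]; nlinarith
      set z₁ := w + (τ * a / (1 - τ * b)) • (y₁ - w) with hz₁
      have hfin : z₁ + (τ * b) • (y₂ - z₁) = γ u := by
        have e1 : (τ * b) • (y₂ - z₁) + z₁ = (1 - τ * b) • z₁ + (τ * b) • y₂ := by module
        have e2 : (1 - τ * b) • z₁ = (1 - τ * b) • w + (τ * a) • (y₁ - w) := by
          rw [hz₁, smul_add, smul_smul]; congr 2; field_simp
        rw [add_comm, e1, e2, hw]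
        simp only [hγ, hy]
        have e3 : u = s + τ * (1 - s) := by rw [hτ]; field_simp; ring
        have e4 : b = 1 - a := by linarith
        rw [e3, e4]
        module
      show γ u ∈ E
      rw [← hfin]
      apply h₂ z₁ ⟨hu1, hz₁E⟩ (τ * b) ⟨by positivity, hτb.le⟩
      rw [hfin]
      exact hball u ⟨by linarith, hu2.le⟩
  exact key ⟨ht.1, le_rfl⟩

lemma flow_closed {E : Set V} (hE : IsClosed E) (x : V) (r : ℝ) :
    IsClosed {p | Flow E p x r} := by
  rw [isClosed_iff_frequently]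
  intro y hy z hz t ht htz
  have h2 : ∀ᶠ y' in 𝓝 y, z + t • (y' - z) ∈ ball x r := by
    have : ContinuousAt (fun y' : V => z + t • (y' - z)) y := by fun_prop
    exact this.eventually_mem (isOpen_ball.mem_nhds htz)
  have h3 : ∃ᶠ y' in 𝓝 y, z + t • (y' - z) ∈ E := by
    refine (hy.and_eventually h2).mono ?_
    rintro y' ⟨h4, h5⟩
    exact h4 z hz t ht h5
  have hcl : IsClosed {y' : V | z + t • (y' - z) ∈ E} :=
    hE.preimage (by fun_prop : Continuous fun y' : V => z + t • (y' - z))
  exact (isClosed_iff_frequently.1 hcl) y h3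

lemma convex3 {C : Set V} (hC : Convex ℝ C) {a c u : V} (ha : a ∈ C) (hc : c ∈ C) (hu : u ∈ C)
    {α β γ : ℝ} (hα : 0 ≤ α) (hβ : 0 ≤ β) (hγ : 0 ≤ γ) (h : α + β + γ = 1) :
    α • a + β • c + γ • u ∈ C := by
  have := hC.sum_mem (t := Finset.univ) (w := ![α, β, γ]) (z := ![a, c, u])
    (by intro i _; fin_cases i <;> simpa) (by simp [Fin.sum_univ_three, h])
    (by intro i _; fin_cases i <;> simpa)
  simpa [Fin.sum_univ_three] using this

/-- Point on the ray from `p` through `z + τ (z' - z)` at ratio `g`. -/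
def P (p z z' : V) (τ g : ℝ) : V := p + g • ((z - p) + τ • (z' - z))

lemma P_cont (p z z' : V) : Continuous (fun q : ℝ × ℝ => P p z z' q.1 q.2) := by
  unfold P; fun_prop

/-- One-sided stability. -/
lemma lemL {E : Set V} (p : V) (hp : Good E p) (z z' : V)
    (hzz : ∀ τ ∈ Icc (0 : ℝ) 1, P p z z' τ 1 ∈ E) (f₀ f₁ : ℝ) (hf0 : 0 ≤ f₀) (hf01 : f₀ < f₁)
    (hf1 : f₁ ≤ 1) (h0 : ∀ g ∈ Icc f₀ 1, P p z z' 0 g ∈ E) :
    ∃ δ > 0, ∀ τ ∈ Icc (0 : ℝ) δ, ∀ g ∈ Icc f₁ 1, P p z z' τ g ∈ E := by
  set I : ℝ → Prop := fun t => ∃ δ > 0, ∀ τ ∈ Icc (0 : ℝ) δ, ∀ g ∈ Icc t 1, P p z z' τ g ∈ E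
    with hI
  have hImono : ∀ t₁ t₂, t₁ ≤ t₂ → I t₁ → I t₂ := by
    rintro t₁ t₂ h12 ⟨δ, hδ, h⟩
    exact ⟨δ, hδ, fun τ hτ g hg => h τ hτ g ⟨h12.trans hg.1, hg.2⟩⟩
  have hI1 : I 1 := by
    refine ⟨1, one_pos, fun τ hτ g hg => ?_⟩
    have : g = 1 := le_antisymm hg.2 hg.1
    rw [this]; exact hzz τ hτ
  have claim : ∀ s ∈ Icc f₁ 1, ∃ η > 0, ∀ t₁ ∈ Icc f₁ 1, ∀ t₂ ∈ Icc f₁ 1,
      |t₁ - s| < η → |t₂ - s| < η → I t₁ → I t₂ := by
    intro s hs
    have hwE : P p z z' 0 s ∈ E := h0 s ⟨hf01.le.trans hs.1, hs.2⟩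
    obtain ⟨ρ, hρ, hloc⟩ := hp _ hwE
    have hc : ContinuousAt (fun q : ℝ × ℝ => P p z z' q.1 q.2) (0, s) := (P_cont p z z').continuousAt
    obtain ⟨η', hη', hηball⟩ := Metric.continuousAt_iff.1 hc ρ hρ
    have hball : ∀ τ g : ℝ, |τ| < η' → |g - s| < η' → P p z z' τ g ∈ ball (P p z z' 0 s) ρ := by
      intro τ g h1 h2
      have := @hηball (τ, g) (by
        rw [Prod.dist_eq]
        exact max_lt (by simpa [Real.dist_eq] using h1) (by simpa [Real.dist_eq] using h2))
      simpa [mem_ball] using this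
    have hsf : 0 < s - f₀ := by linarith [hs.1]
    set η := min η' (s - f₀) / 3 with hη
    have hηpos : 0 < η := by positivity
    have hη1 : 3 * η ≤ η' := by
      have := min_le_left η' (s - f₀); linarith
    have hη2 : 3 * η ≤ s - f₀ := by
      have := min_le_right η' (s - f₀); linarith
    refine ⟨η, hηpos, ?_⟩
    intro t₁ ht₁ t₂ ht₂ h1 h2 hIt
    rcases le_or_gt t₁ t₂ with h12 | h12
    · exact hImono _ _ h12 hIt
    obtain ⟨δ, hδ, hδE⟩ := hIt
    have ht₁pos : 0 < t₁ := by linarith [ht₁.1]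
    have ht₂pos : 0 < t₂ := by linarith [ht₂.1]
    rw [abs_lt] at h1 h2
    set s₂ := s - 2 * η with hs₂
    set δ' := min δ η with hδ'
    have hδ'pos : 0 < δ' := by positivity
    have hδ'1 : δ' ≤ δ := min_le_left _ _
    have hδ'2 : δ' ≤ η := min_le_right _ _
    have hst : 0 < t₂ - s₂ := by linarith
    have hst1 : 0 < t₁ - s₂ := by linarith
    have ha : P p z z' 0 t₁ ∈ ball (P p z z' 0 s) ρ ∩ E := by
      refine ⟨hball 0 t₁ (by simpa using hη') (by rw [abs_lt]; constructor <;> linarith), ?_⟩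
      exact hδE 0 ⟨le_rfl, hδ.le⟩ t₁ ⟨le_rfl, ht₁.2⟩
    have hcc : P p z z' 0 s₂ ∈ ball (P p z z' 0 s) ρ ∩ E := by
      refine ⟨hball 0 s₂ (by simpa using hη') (by rw [abs_lt]; constructor <;> linarith), ?_⟩
      exact h0 s₂ ⟨by linarith, by linarith [hs.2]⟩
    have hu : P p z z' δ' t₁ ∈ ball (P p z z' 0 s) ρ ∩ E := by
      refine ⟨hball δ' t₁ (by rw [abs_of_pos hδ'pos]; linarith)
        (by rw [abs_lt]; constructor <;> linarith), ?_⟩
      exact hδE δ' ⟨hδ'pos.le, hδ'1⟩ t₁ ⟨le_rfl, ht₁.2⟩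
    refine ⟨δ' * ((t₂ - s₂) / (t₁ - s₂)), by positivity, ?_⟩
    intro τ hτ g hg
    have hq1 : (t₂ - s₂) / (t₁ - s₂) ≤ 1 := by
      rw [div_le_one hst1]; linarith
    have hτδ' : τ ≤ δ' := hτ.2.trans (mul_le_of_le_one_right hδ'pos.le hq1)
    rcases le_or_gt t₁ g with hgt | hgt
    · exact hδE τ ⟨hτ.1, hτδ'.trans hδ'1⟩ g ⟨hgt, hg.2⟩
    have hτη : |τ| < η' := by rw [abs_of_nonneg hτ.1]; linarith
    rcases hloc with hconv | hflow
    · -- convex case
      have hg0 : 0 < g := by linarith [hg.1]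
      have hγ0 : 0 ≤ g * τ / (t₁ * δ') := by have := hτ.1; positivity
      have hβ0 : 0 ≤ (t₁ - g) / (t₁ - s₂) := by
        apply div_nonneg <;> linarith
      have hα0 : 0 ≤ (g - s₂) / (t₁ - s₂) - g * τ / (t₁ * δ') := by
        rw [sub_nonneg]
        have e1 : g * τ / (t₁ * δ') ≤ τ / δ' := by
          rw [div_le_div_iff₀ (by positivity) hδ'pos]
          have : g * (τ * δ') ≤ t₁ * (τ * δ') :=
            mul_le_mul_of_nonneg_right hgt.le (by have := hτ.1; positivity)
          linarith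
        have e2 : τ / δ' ≤ (t₂ - s₂) / (t₁ - s₂) := by
          rw [div_le_iff₀ hδ'pos, mul_comm]; exact hτ.2
        have e3 : (t₂ - s₂) / (t₁ - s₂) ≤ (g - s₂) / (t₁ - s₂) := by
          apply div_le_div_of_nonneg_right _ hst1.le
          linarith [hg.1]
        linarith
      have := convex3 hconv ha hcc hu hα0 hβ0 hγ0 (by field_simp; ring)
      have heq : ((g - s₂) / (t₁ - s₂) - g * τ / (t₁ * δ')) • P p z z' 0 t₁ +
          ((t₁ - g) / (t₁ - s₂)) • P p z z' 0 s₂ + (g * τ / (t₁ * δ')) • P p z z' δ' t₁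
          = P p z z' τ g := by
        have hA : ∀ (α β γ : ℝ), α + β + γ = 1 → (α + γ) * t₁ + β * s₂ = g →
            γ * t₁ * δ' = g * τ →
            α • P p z z' 0 t₁ + β • P p z z' 0 s₂ + γ • P p z z' δ' t₁ = P p z z' τ g := by
          intro α β γ k1 k2 k3
          unfold P
          have l1 : α • (p + t₁ • (z - p + (0:ℝ) • (z' - z))) + β • (p + s₂ • (z - p + (0:ℝ) • (z' - z)))
            + γ • (p + t₁ • (z - p + δ' • (z' - z))) = (α + β + γ) • p +
            ((α + γ) * t₁ + β * s₂) • (z - p) + (γ * t₁ * δ') • (z' - z) := by module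
          rw [l1, k1, k2, k3]; module
        apply hA
        · field_simp; ring
        · field_simp; ring
        · field_simp
      rw [heq] at this
      exact this.2
    · -- flow case
      have hPE : P p z z' τ t₁ ∈ E := hδE τ ⟨hτ.1, hτδ'.trans hδ'1⟩ t₁ ⟨le_rfl, ht₁.2⟩
      have hPb : P p z z' τ t₁ ∈ ball (P p z z' 0 s) ρ :=
        hball τ t₁ hτη (by rw [abs_lt]; constructor <;> linarith)
      have hPb2 : P p z z' τ g ∈ ball (P p z z' 0 s) ρ :=
        hball τ g hτη (by rw [abs_lt]; constructor <;> linarith [hg.1])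
      have heq : P p z z' τ t₁ + (1 - g / t₁) • (p - P p z z' τ t₁) = P p z z' τ g := by
        unfold P
        have : g = (g / t₁) * t₁ := by field_simp
        generalize (g / t₁) = k at this
        rw [this]; module
      have hg0 : 0 < g := by linarith [hg.1]
      have := hflow _ ⟨hPb, hPE⟩ (1 - g / t₁)
        ⟨by rw [sub_nonneg, div_le_one ht₁pos]; exact hgt.le, by
          have : 0 ≤ g / t₁ := by positivity
          linarith⟩ (by rw [heq]; exact hPb2)
      rwa [heq] at this
  have := (isPreconnected_Icc (a := f₁) (b := (1:ℝ))).induction₂' (fun a b => I a → I b)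
    (by
      intro s hs
      obtain ⟨η, hη, hcl⟩ := claim s hs
      have h1 : ∀ᶠ t in 𝓝[Icc f₁ 1] s, |t - s| < η := by
        apply eventually_nhdsWithin_of_eventually_nhds
        have := Metric.ball_mem_nhds s hη
        filter_upwards [this] with t ht
        simpa [Real.dist_eq] using ht
      filter_upwards [h1, self_mem_nhdsWithin] with t ht htI
      refine ⟨fun h => hcl s hs t htI (by simpa using hη) ht h,
        fun h => hcl t htI s hs ht (by simpa using hη) h⟩)
    (by intro a b c _ _ _ hab hbc h; exact hbc (hab h))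
    (x := 1) (y := f₁) ⟨hf1, le_rfl⟩ ⟨le_rfl, hf1⟩
  exact this hI1

/-- Two-sided stability. -/
lemma lemL2 {E : Set V} (p : V) (hp : Good E p) (x y : V)
    (hxy : ∀ τ ∈ Icc (0 : ℝ) 1, P p x y τ 1 ∈ E) (f₀ f₁ : ℝ) (hf0 : 0 ≤ f₀) (hf01 : f₀ < f₁)
    (hf1 : f₁ ≤ 1) (τ₀ : ℝ) (hτ₀ : τ₀ ∈ Icc (0 : ℝ) 1) (h0 : ∀ g ∈ Icc f₀ 1, P p x y τ₀ g ∈ E) :
    ∀ᶠ τ in 𝓝[Icc 0 1] τ₀, ∀ g ∈ Icc f₁ 1, P p x y τ g ∈ E := by
  -- right side
  obtain ⟨δ₁, hδ₁, h₁⟩ := lemL p hp (x + τ₀ • (y - x)) y (by
    intro τ hτ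
    have := hxy (τ₀ + τ * (1 - τ₀)) ⟨by nlinarith [hτ.1, hτ.2, hτ₀.1, hτ₀.2], by
      nlinarith [hτ.1, hτ.2, hτ₀.1, hτ₀.2]⟩
    convert this using 1
    unfold P; module) f₀ f₁ hf0 hf01 hf1 (by
    intro g hg
    convert h0 g hg using 1
    unfold P; module)
  obtain ⟨δ₂, hδ₂, h₂⟩ := lemL p hp (x + τ₀ • (y - x)) x (by
    intro τ hτ
    have := hxy (τ₀ - τ * τ₀) ⟨by nlinarith [hτ.1, hτ.2, hτ₀.1, hτ₀.2], by
      nlinarith [hτ.1, hτ.2, hτ₀.1, hτ₀.2]⟩
    convert this using 1
    unfold P; module) f₀ f₁ hf0 hf01 hf1 (by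
    intro g hg
    convert h0 g hg using 1
    unfold P; module)
  have hR : ∀ᶠ τ in 𝓝[Icc 0 1] τ₀, τ₀ ≤ τ → ∀ g ∈ Icc f₁ 1, P p x y τ g ∈ E := by
    rcases eq_or_lt_of_le hτ₀.2 with h | h
    · filter_upwards [self_mem_nhdsWithin] with τ hτ hle g hg
      have : τ = τ₀ := le_antisymm (by rw [h]; exact hτ.2) hle
      rw [this]; exact h0 g ⟨hf01.le.trans hg.1, hg.2⟩
    · have hpos : 0 < 1 - τ₀ := by linarith
      have hev : ∀ᶠ τ in 𝓝[Icc 0 1] τ₀, τ < τ₀ + δ₁ * (1 - τ₀) :=
        eventually_nhdsWithin_of_eventually_nhds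
          (eventually_lt_nhds (by nlinarith [mul_pos hδ₁ hpos]))
      filter_upwards [hev] with τ hτ hle g hg
      have := h₁ ((τ - τ₀) / (1 - τ₀)) ⟨by apply div_nonneg <;> linarith, by
        rw [div_le_iff₀ hpos]; linarith⟩ g hg
      convert this using 1
      unfold P
      have e : τ = τ₀ + ((τ - τ₀) / (1 - τ₀)) * (1 - τ₀) := by field_simp; ring
      generalize ((τ - τ₀) / (1 - τ₀)) = k at e
      rw [e]; module
  have hL : ∀ᶠ τ in 𝓝[Icc 0 1] τ₀, τ ≤ τ₀ → ∀ g ∈ Icc f₁ 1, P p x y τ g ∈ E := by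
    rcases eq_or_lt_of_le hτ₀.1 with h | h
    · filter_upwards [self_mem_nhdsWithin] with τ hτ hle g hg
      have : τ = τ₀ := le_antisymm hle (by rw [← h]; exact hτ.1)
      rw [this]; exact h0 g ⟨hf01.le.trans hg.1, hg.2⟩
    · have hev : ∀ᶠ τ in 𝓝[Icc 0 1] τ₀, τ₀ - δ₂ * τ₀ < τ :=
        eventually_nhdsWithin_of_eventually_nhds
          (eventually_gt_nhds (by nlinarith [mul_pos hδ₂ h]))
      filter_upwards [hev] with τ hτ hle g hg
      have := h₂ ((τ₀ - τ) / τ₀) ⟨by apply div_nonneg <;> linarith, by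
        rw [div_le_iff₀ h]; linarith⟩ g hg
      convert this using 1
      unfold P
      have e : τ = τ₀ - ((τ₀ - τ) / τ₀) * τ₀ := by field_simp; ring
      generalize ((τ₀ - τ) / τ₀) = k at e
      rw [e]; module
  filter_upwards [hR, hL] with τ h1 h2 g hg
  rcases le_total τ₀ τ with h | h
  · exact h1 h g hg
  · exact h2 h g hg

/-- The least ratio reached when moving from `x + τ (y - x)` toward `p` inside `E`. -/
noncomputable def F (E : Set V) (p x y : V) (τ : ℝ) : ℝ :=
  sInf {f | f ∈ Icc (0 : ℝ) 1 ∧ ∀ g ∈ Icc f 1, P p x y τ g ∈ E}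

lemma F_mem {E : Set V} (hE : IsClosed E) (p x y : V) (τ : ℝ) (h1 : P p x y τ 1 ∈ E) :
    F E p x y τ ∈ Icc (0 : ℝ) 1 ∧ ∀ g ∈ Icc (F E p x y τ) 1, P p x y τ g ∈ E := by
  set S := {f | f ∈ Icc (0 : ℝ) 1 ∧ ∀ g ∈ Icc f 1, P p x y τ g ∈ E} with hS
  have h1S : (1 : ℝ) ∈ S := by
    refine ⟨⟨zero_le_one, le_rfl⟩, fun g hg => ?_⟩
    have : g = 1 := le_antisymm hg.2 hg.1
    rwa [this]
  have hne : S.Nonempty := ⟨1, h1S⟩
  have hbdd : BddBelow S := ⟨0, fun f hf => hf.1.1⟩
  have hF : F E p x y τ = sInf S := rfl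
  have hle : sInf S ≤ 1 := csInf_le hbdd h1S
  have hge : 0 ≤ sInf S := le_csInf hne fun f hf => hf.1.1
  rw [hF]
  refine ⟨⟨hge, hle⟩, ?_⟩
  have hcl : IsClosed {g : ℝ | P p x y τ g ∈ E} :=
    hE.preimage (by unfold P; fun_prop : Continuous fun g : ℝ => P p x y τ g)
  have hsub : Ioc (sInf S) 1 ⊆ {g : ℝ | P p x y τ g ∈ E} := by
    intro g hg
    obtain ⟨f, hf, hfg⟩ := exists_lt_of_csInf_lt hne hg.1
    exact hf.2 g ⟨hfg.le, hg.2⟩
  rcases eq_or_lt_of_le hle with h | h
  · intro g hg
    have : g = 1 := le_antisymm hg.2 (by rw [← h]; exact hg.1)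
    rwa [this]
  · have := closure_minimal hsub hcl
    rw [closure_Ioc h.ne] at this
    exact this

lemma F_le {E : Set V} (p x y : V) (τ f : ℝ) (hf : f ∈ Icc (0 : ℝ) 1)
    (h : ∀ g ∈ Icc f 1, P p x y τ g ∈ E) : F E p x y τ ≤ f :=
  csInf_le ⟨0, fun _ hf => hf.1.1⟩ ⟨hf, h⟩

lemma F_cont {E : Set V} (hE : IsClosed E) (p : V) (hp : Good E p) (x y : V)
    (hxy : ∀ τ ∈ Icc (0 : ℝ) 1, P p x y τ 1 ∈ E) :
    ContinuousOn (F E p x y) (Icc 0 1) := by
  intro τ₀ hτ₀
  have hm := F_mem hE p x y τ₀ (hxy τ₀ hτ₀)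
  apply tendsto_order.2
  constructor
  · intro c hc
    rcases lt_or_ge c 0 with hc0 | hc0
    · filter_upwards [self_mem_nhdsWithin] with τ hτ
      exact lt_of_lt_of_le hc0 (F_mem hE p x y τ (hxy τ hτ)).1.1
    · have : ¬ ∀ g ∈ Icc c 1, P p x y τ₀ g ∈ E := by
        intro h
        exact absurd (F_le p x y τ₀ c ⟨hc0, hc.le.trans hm.1.2⟩ h) (not_le.2 hc)
      push Not at this
      obtain ⟨g, hg, hgE⟩ := this
      have hev : ∀ᶠ τ in 𝓝 τ₀, P p x y τ g ∈ Eᶜ := by
        have : ContinuousAt (fun τ : ℝ => P p x y τ g) τ₀ := by unfold P; fun_prop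
        exact this.eventually_mem (hE.isOpen_compl.mem_nhds hgE)
      filter_upwards [eventually_nhdsWithin_of_eventually_nhds hev, self_mem_nhdsWithin]
        with τ h1 h2
      by_contra hcon
      rw [not_lt] at hcon
      exact h1 ((F_mem hE p x y τ (hxy τ h2)).2 g ⟨hcon.trans hg.1, hg.2⟩)
  · intro c hc
    rcases lt_or_ge 1 c with hc1 | hc1
    · filter_upwards [self_mem_nhdsWithin] with τ hτ
      exact lt_of_le_of_lt (F_mem hE p x y τ (hxy τ hτ)).1.2 hc1
    · have := lemL2 p hp x y hxy (F E p x y τ₀) ((F E p x y τ₀ + c) / 2) hm.1.1 (by linarith)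
        (by linarith) τ₀ hτ₀ hm.2
      filter_upwards [this] with τ hτ
      have := F_le p x y τ _ ⟨by linarith [hm.1.1], by linarith⟩ hτ
      linarith

lemma lemT {E : Set V} (hE : IsClosed E) (p : V) (hp : Good E p) (x y : V)
    (hxy : segment ℝ x y ⊆ E) (f₀ : ℝ) (hf0 : 0 < f₀) (hf1 : f₀ ≤ 1)
    (hb : ∀ g ∈ Icc f₀ 1, p + g • (x - p) ∈ E) : segment ℝ (p + f₀ • (x - p)) y ⊆ E := by
  have hxy' : ∀ τ ∈ Icc (0 : ℝ) 1, P p x y τ 1 ∈ E := by
    intro τ hτ
    apply hxy
    rw [segment_eq_image']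
    exact ⟨τ, hτ, by unfold P; module⟩
  set ℓ : ℝ → ℝ := fun τ => (1 - τ) / f₀ + τ with hℓ
  have hℓ1 : ∀ τ ∈ Icc (0:ℝ) 1, 1 ≤ ℓ τ := by
    intro τ hτ
    have : 1 - τ ≤ (1 - τ) / f₀ := by
      rw [le_div_iff₀ hf0]
      have := hτ.2
      nlinarith
    simp only [hℓ]; linarith
  have hFc := F_cont hE p hp x y hxy'
  set m : ℝ → ℝ := fun τ => F E p x y τ * ℓ τ with hm
  have hmc : ContinuousOn m (Icc 0 1) := hFc.mul (by fun_prop)
  have main : ∀ τ ∈ Icc (0:ℝ) 1, m τ ≤ 1 := by
    by_contra hcon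
    push Not at hcon
    obtain ⟨τ₁, hτ₁, hτ₁m⟩ := hcon
    obtain ⟨τM, hτM, hmax⟩ := isCompact_Icc.exists_isMaxOn ⟨0, by simp⟩ hmc
    have hmax' : ∀ τ ∈ Icc (0:ℝ) 1, m τ ≤ m τM := fun τ hτ => hmax hτ
    set M := m τM with hM
    have hM1 : 1 < M := hτ₁m.trans_le (hmax' τ₁ hτ₁)
    have hcomp : IsCompact (Icc (0:ℝ) 1 ∩ m ⁻¹' {M}) := by
      apply isCompact_Icc.of_isClosed_subset _ inter_subset_left
      exact hmc.preimage_isClosed_of_isClosed isClosed_Icc isClosed_singleton
    obtain ⟨τ₀, ⟨hτ₀, hτ₀M⟩, hleast⟩ := hcomp.exists_isLeast ⟨τM, hτM, rfl⟩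
    have hτ₀M : m τ₀ = M := hτ₀M
    have hstrict : ∀ τ ∈ Icc (0:ℝ) 1, τ < τ₀ → m τ < M := by
      intro τ hτ hlt
      refine lt_of_le_of_ne (hmax' τ hτ) fun h => ?_
      exact absurd (hleast ⟨hτ, h⟩) (not_le.2 hlt)
    have hτ₀0 : 0 < τ₀ := by
      rcases eq_or_lt_of_le hτ₀.1 with h | h
      · exfalso
        have h1 : F E p x y 0 ≤ f₀ := F_le p x y 0 f₀ ⟨hf0.le, hf1⟩ (by
          intro g hg
          convert hb g hg using 1
          unfold P; module)
        have h2 : m 0 ≤ 1 := by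
          simp only [hm, hℓ]
          have : f₀ * ((1 - 0) / f₀ + 0) = 1 := by field_simp; ring
          calc F E p x y 0 * ((1 - 0) / f₀ + 0) ≤ f₀ * ((1 - 0) / f₀ + 0) :=
                mul_le_mul_of_nonneg_right h1 (by positivity)
            _ = 1 := this
        rw [← h] at hτ₀M; linarith
      · exact h
    have hτ₀1 : τ₀ < 1 := by
      rcases eq_or_lt_of_le hτ₀.2 with h | h
      · exfalso
        have h1 : F E p x y 1 ≤ 1 := (F_mem hE p x y 1 (hxy' 1 (by simp))).1.2
        have h2 : m 1 ≤ 1 := by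
          simp only [hm, hℓ]
          simpa using h1
        rw [h] at hτ₀M; linarith
      · exact h
    have hF₀ := F_mem hE p x y τ₀ (hxy' τ₀ hτ₀)
    set F₀ := F E p x y τ₀ with hF₀def
    have hℓ₀ : 0 < ℓ τ₀ := by linarith [hℓ1 τ₀ hτ₀]
    have hF₀pos : 0 < F₀ := by
      by_contra hcon
      have : m τ₀ ≤ 0 := mul_nonpos_of_nonpos_of_nonneg (not_lt.1 hcon) hℓ₀.le
      linarith
    have hb₀E : P p x y τ₀ F₀ ∈ E := hF₀.2 F₀ ⟨le_rfl, hF₀.1.2⟩
    obtain ⟨ρ, hρ, hloc⟩ := hp _ hb₀E
    rcases hloc with hconv | hflow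
    · -- convex case
      have hFc₀ : ContinuousAt (F E p x y) τ₀ :=
        (hFc τ₀ hτ₀).continuousAt (Icc_mem_nhds hτ₀0 hτ₀1)
      have hPc : ContinuousAt (fun τ => P p x y τ (F E p x y τ)) τ₀ := by
        have := (P_cont p x y).continuousAt (x := (τ₀, F E p x y τ₀))
        exact ContinuousAt.comp (f := fun τ => (τ, F E p x y τ)) this (continuousAt_id.prodMk hFc₀)
      have hev : ∀ᶠ τ in 𝓝 τ₀, P p x y τ (F E p x y τ) ∈ ball (P p x y τ₀ F₀) ρ ∧
          τ ∈ Icc (0:ℝ) 1 ∧ 0 < F E p x y τ := by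
        refine (hPc.eventually_mem (isOpen_ball.mem_nhds (mem_ball_self hρ))).and
          ((show ∀ᶠ τ in 𝓝 τ₀, τ ∈ Icc (0:ℝ) 1 from Icc_mem_nhds hτ₀0 hτ₀1).and ?_)
        exact hFc₀.eventually_mem (isOpen_Ioi.mem_nhds hF₀pos)
      obtain ⟨δ, hδ, hδball⟩ := Metric.eventually_nhds_iff.1 hev
      obtain ⟨hp1, hp2, hp3⟩ := @hδball (τ₀ + δ / 2) (by
        rw [Real.dist_eq, add_sub_cancel_left, abs_of_pos (by positivity)]; linarith)
      obtain ⟨hn1, hn2, hn3⟩ := @hδball (τ₀ - δ / 2) (by
        rw [Real.dist_eq, sub_sub_cancel_left, abs_neg, abs_of_pos (by positivity)]; linarith)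
      set τp := τ₀ + δ / 2 with hτp
      set τn := τ₀ - δ / 2 with hτn
      set Fp := F E p x y τp with hFp
      set Fn := F E p x y τn with hFn
      have hpE : P p x y τp Fp ∈ E :=
        (F_mem hE p x y τp (hxy' τp hp2)).2 Fp ⟨le_rfl, (F_mem hE p x y τp (hxy' τp hp2)).1.2⟩
      have hnE : P p x y τn Fn ∈ E :=
        (F_mem hE p x y τn (hxy' τn hn2)).2 Fn ⟨le_rfl, (F_mem hE p x y τn (hxy' τn hn2)).1.2⟩
      have hcmem := hconv ⟨hp1, hpE⟩ ⟨hn1, hnE⟩ (a := Fn / (Fp + Fn)) (b := Fp / (Fp + Fn))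
        (by positivity) (by positivity) (by field_simp; ring)
      set k := 2 * Fp * Fn / (Fp + Fn) with hk
      have hceq : (Fn / (Fp + Fn)) • P p x y τp Fp + (Fp / (Fp + Fn)) • P p x y τn Fn
          = P p x y τ₀ k := by
        have hA : ∀ α β : ℝ, α + β = 1 → α * Fp + β * Fn = k →
            (α * Fp) = (β * Fn) →
            α • P p x y τp Fp + β • P p x y τn Fn = P p x y τ₀ k := by
          intro α β k1 k2 k3
          unfold P
          have l1 : α • (p + Fp • (x - p + τp • (y - x))) + β • (p + Fn • (x - p + τn • (y - x)))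
            = (α + β) • p + (α * Fp + β * Fn) • (x - p) +
              (α * Fp * τp + β * Fn * τn) • (y - x) := by module
          have l2 : α * Fp * τp + β * Fn * τn = k * τ₀ := by
            rw [← k2, ← k3, hτp, hτn]; ring
          rw [l1, k1, k2, l2]; module
        apply hA
        · field_simp; ring
        · rw [hk]; field_simp; ring
        · field_simp
      rw [hceq] at hcmem
      have hkpos : 0 < k := by positivity
      have hkF : k < F₀ := by
        have i1 : Fp * ℓ τp ≤ M := hmax' τp hp2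
        have i2 : Fn * ℓ τn < M := hstrict τn hn2 (by rw [hτn]; linarith)
        have i3 : F₀ * ℓ τ₀ = M := hτ₀M
        have i4 : ℓ τp + ℓ τn = 2 * ℓ τ₀ := by simp only [hℓ, hτp, hτn]; ring
        have i5 : Fn * (Fp * ℓ τp) ≤ Fn * M := mul_le_mul_of_nonneg_left i1 hn3.le
        have i6 : Fp * (Fn * ℓ τn) < Fp * M := mul_lt_mul_of_pos_left i2 hp3
        have i7 : Fp * Fn * (2 * ℓ τ₀) < (Fp + Fn) * M := by
          rw [← i4]; nlinarith
        rw [hk, div_lt_iff₀ (by positivity)]
        rw [← i3] at i7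
        have i8 : (2 * Fp * Fn) * ℓ τ₀ < (F₀ * (Fp + Fn)) * ℓ τ₀ := by nlinarith
        exact lt_of_mul_lt_mul_right i8 hℓ₀.le
      have hle : F E p x y τ₀ ≤ k := by
        apply F_le p x y τ₀ k ⟨hkpos.le, hkF.le.trans hF₀.1.2⟩
        intro g hg
        rcases le_or_gt F₀ g with hg' | hg'
        · exact hF₀.2 g ⟨hg', hg.2⟩
        · have hpos : 0 < F₀ - k := by linarith
          have := hconv hcmem ⟨mem_ball_self hρ, hb₀E⟩ (a := (F₀ - g) / (F₀ - k))
            (b := (g - k) / (F₀ - k)) (by apply div_nonneg <;> linarith)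
            (by apply div_nonneg <;> linarith [hg.1]) (by field_simp; ring)
          have heq : ((F₀ - g) / (F₀ - k)) • P p x y τ₀ k + ((g - k) / (F₀ - k)) • P p x y τ₀ F₀
              = P p x y τ₀ g := by
            have hA : ∀ α β : ℝ, α + β = 1 → α * k + β * F₀ = g →
                α • P p x y τ₀ k + β • P p x y τ₀ F₀ = P p x y τ₀ g := by
              intro α β k1 k2
              unfold P
              have l1 : α • (p + k • (x - p + τ₀ • (y - x))) + β • (p + F₀ • (x - p + τ₀ • (y - x)))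
                = (α + β) • p + (α * k + β * F₀) • (x - p + τ₀ • (y - x)) := by module
              rw [l1, k1, k2]; module
            apply hA
            · field_simp; ring
            · field_simp; ring
          rw [heq] at this
          exact this.2
      exact absurd hle (not_le.2 hkF)
    · -- flow case
      have hc : ContinuousAt (fun g : ℝ => P p x y τ₀ g) F₀ := by unfold P; fun_prop
      obtain ⟨η, hη, hηball⟩ := Metric.continuousAt_iff.1 hc ρ hρ
      set ε := min η F₀ / 2 with hε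
      have hεpos : 0 < ε := by positivity
      have hε1 : 2 * ε ≤ η := by have := min_le_left η F₀; linarith
      have hε2 : 2 * ε ≤ F₀ := by have := min_le_right η F₀; linarith
      have hle : F E p x y τ₀ ≤ F₀ - ε := by
        apply F_le p x y τ₀ (F₀ - ε) ⟨by linarith, by linarith [hF₀.1.2]⟩
        intro g hg
        rcases le_or_gt F₀ g with hg' | hg'
        · exact hF₀.2 g ⟨hg', hg.2⟩
        · have heq : P p x y τ₀ F₀ + (1 - g / F₀) • (p - P p x y τ₀ F₀) = P p x y τ₀ g := by
            unfold P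
            have : g = (g / F₀) * F₀ := by field_simp
            generalize (g / F₀) = k at this
            rw [this]; module
          have hgpos : 0 ≤ g := by linarith [hg.1]
          have := hflow _ ⟨mem_ball_self hρ, hb₀E⟩ (1 - g / F₀)
            ⟨by rw [sub_nonneg, div_le_one hF₀pos]; exact hg'.le, by
              have : 0 ≤ g / F₀ := by positivity
              linarith⟩ (by
              rw [heq]
              apply hηball
              rw [Real.dist_eq, abs_lt]
              constructor <;> linarith [hg.1])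
          rwa [heq] at this
      linarith
  -- conclusion
  rw [segment_eq_image']
  rintro _ ⟨s, hs, rfl⟩
  set g := (1 - s) * f₀ + s with hg
  have hgpos : 0 < g := by
    rcases eq_or_lt_of_le hs.2 with h | h
    · rw [hg, h]; simp
    · have := mul_pos (sub_pos.2 h) hf0
      have := hs.1
      linarith
  have hg1 : g ≤ 1 := by
    rw [hg]; nlinarith [hs.1, hs.2]
  have hsg : s ≤ g := by
    rw [hg]; nlinarith [hs.1, hs.2]
  have hτ : s / g ∈ Icc (0:ℝ) 1 := ⟨by have := hs.1; positivity, by rw [div_le_one hgpos]; exact hsg⟩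
  have h1 := main (s / g) hτ
  have hℓg : ℓ (s / g) = 1 / g := by
    simp only [hℓ]
    rw [hg] at hgpos ⊢
    field_simp
    ring
  have hFg : F E p x y (s / g) ≤ g := by
    simp only [hm] at h1
    rw [hℓg] at h1
    rw [mul_one_div, div_le_one hgpos] at h1
    exact h1
  have h2 := (F_mem hE p x y (s / g) (hxy' _ hτ)).2 g ⟨hFg, hg1⟩
  convert h2 using 1
  unfold P
  rw [smul_add, smul_smul, mul_div_cancel₀ s hgpos.ne', hg]
  module

/-- If `x` sees `p` and `x` sees `y` then `y` sees `p`. -/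
lemma lemA {E : Set V} (hE : IsClosed E) (p : V) (hp : Good E p) (x y : V)
    (hxy : segment ℝ x y ⊆ E) (hpx : segment ℝ p x ⊆ E) : segment ℝ p y ⊆ E := by
  rw [segment_eq_image'] at hpx
  rw [segment_eq_image']
  rintro _ ⟨s, hs, rfl⟩
  have h1 : ∀ f ∈ Ioc (0:ℝ) 1, (p + f • (x - p)) + s • (y - (p + f • (x - p))) ∈ E := by
    intro f hf
    have := lemT hE p hp x y hxy f hf.1 hf.2 (fun g hg => hpx ⟨g, ⟨hf.1.le.trans hg.1, hg.2⟩, rfl⟩)
    rw [segment_eq_image'] at this
    exact this ⟨s, hs, rfl⟩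
  have hcl : IsClosed {f : ℝ | (p + f • (x - p)) + s • (y - (p + f • (x - p))) ∈ E} :=
    hE.preimage (by fun_prop :
      Continuous fun f : ℝ => (p + f • (x - p)) + s • (y - (p + f • (x - p))))
  have h2 := closure_minimal (s := Ioc (0:ℝ) 1) h1 hcl
  rw [closure_Ioc zero_ne_one] at h2
  have h3 : (p + (0:ℝ) • (x - p)) + s • (y - (p + (0:ℝ) • (x - p))) ∈ E := h2 ⟨le_rfl, zero_le_one⟩
  simpa using h3

/-- Points of `E` seeing all of `B_r(x) ∩ E`. -/
def A (E : Set V) (x : V) (r : ℝ) : Set V := {y ∈ E | ∀ z ∈ ball x r ∩ E, segment ℝ y z ⊆ E}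

lemma A_anti (E : Set V) (x : V) {r s : ℝ} (h : r ≤ s) : A E x s ⊆ A E x r :=
  fun _ hy => ⟨hy.1, fun z hz => hy.2 z ⟨ball_subset_ball h hz.1, hz.2⟩⟩

lemma A_flow {E : Set V} (x : V) (r : ℝ) : A E x r ⊆ {p | Flow E p x r} := by
  intro y hy z hz t ht _
  apply hy.2 z hz
  rw [segment_symm, segment_eq_image']
  exact ⟨t, ht, rfl⟩

/-- The locally non-convex points. -/
def Q (E : Set V) : Set V := {x ∈ E | ∀ r > 0, ¬ Convex ℝ (ball x r ∩ E)}

lemma Q_lnc {E : Set V} {x : V} (hx : x ∈ Q E) : IsLNC E x := by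
  refine ⟨?_, hx.2⟩
  refine ⟨subset_closure hx.1, fun hint => ?_⟩
  obtain ⟨r, hr, hball⟩ := Metric.isOpen_iff.1 isOpen_interior x hint
  apply hx.2 r hr
  rw [inter_eq_left.2 (hball.trans interior_subset)]
  exact convex_ball x r

lemma Q_closed {E : Set V} (hE : IsClosed E) : IsClosed (Q E) := by
  rw [← isOpen_compl_iff, Metric.isOpen_iff]
  intro x hx
  by_cases hxE : x ∈ E
  · have : ∃ r > 0, Convex ℝ (ball x r ∩ E) := by
      by_contra hcon
      push Not at hcon
      exact hx ⟨hxE, hcon⟩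
    obtain ⟨r, hr, hconv⟩ := this
    refine ⟨r / 2, by positivity, fun y hy hyQ => ?_⟩
    apply hyQ.2 (r / 2) (by positivity)
    have hsub : ball y (r / 2) ⊆ ball x r := by
      apply ball_subset_ball'
      rw [mem_ball] at hy; linarith
    have : ball y (r / 2) ∩ E = ball y (r / 2) ∩ (ball x r ∩ E) := by
      ext z; constructor
      · rintro ⟨h1, h2⟩; exact ⟨h1, hsub h1, h2⟩
      · rintro ⟨h1, _, h2⟩; exact ⟨h1, h2⟩
    rw [this]
    exact (convex_ball _ _).inter hconv
  · obtain ⟨r, hr, hball⟩ := Metric.isOpen_iff.1 hE.isOpen_compl x hxE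
    exact ⟨r, hr, fun y hy hyQ => hball hy hyQ.1⟩

/-- Uniform radius. -/
lemma uniform {E : Set V} (hE : IsCompact E) (n : ℕ) (hC : PropertyC n E) :
    ∃ r > 0, ∀ x : Fin n → V, (∀ i, x i ∈ Q E) → ∃ y, ∀ i, y ∈ A E (x i) r ∧ y ∈ E := by
  have hQ : IsCompact (Q E) := hE.of_isClosed_subset (Q_closed hE.isClosed) (fun _ h => h.1)
  have hK : IsCompact (Set.pi univ (fun _ : Fin n => Q E)) := isCompact_univ_pi fun _ => hQ
  have := hK.induction_on (p := fun U => ∃ r > 0, ∀ x ∈ U, ∃ y, ∀ i, y ∈ A E (x i) r ∧ y ∈ E)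
    ⟨1, one_pos, by simp⟩
    (by
      rintro s t hst ⟨r, hr, h⟩
      exact ⟨r, hr, fun x hx => h x (hst hx)⟩)
    (by
      rintro s t ⟨r₁, hr₁, h₁⟩ ⟨r₂, hr₂, h₂⟩
      refine ⟨min r₁ r₂, lt_min hr₁ hr₂, ?_⟩
      rintro x (hx | hx)
      · obtain ⟨y, hy⟩ := h₁ x hx
        exact ⟨y, fun i => ⟨A_anti E _ (min_le_left _ _) (hy i).1, (hy i).2⟩⟩
      · obtain ⟨y, hy⟩ := h₂ x hx
        exact ⟨y, fun i => ⟨A_anti E _ (min_le_right _ _) (hy i).1, (hy i).2⟩⟩)
    (by
      intro x hx
      obtain ⟨y, hyE, hy⟩ := hC x (fun i => Q_lnc (hx i (mem_univ i)))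
      have : ∃ r > 0, ∀ i, y ∈ A E (x i) r := by
        have h1 : ∀ i, ∃ r > 0, y ∈ A E (x i) r := by
          intro i
          obtain ⟨_, r, hr, h⟩ := hy i
          exact ⟨r, hr, hyE, fun z hz => (h z hz).2.2⟩
        choose r hr h using h1
        rcases isEmpty_or_nonempty (Fin n) with he | he
        · exact ⟨1, one_pos, fun i => he.elim i⟩
        · refine ⟨Finset.univ.inf' Finset.univ_nonempty r, ?_, fun i => ?_⟩
          · rw [gt_iff_lt, Finset.lt_inf'_iff]; exact fun i _ => hr i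
          · exact A_anti E _ (Finset.inf'_le _ (Finset.mem_univ i)) (h i)
      obtain ⟨r, hr, h⟩ := this
      refine ⟨ball x (r / 2), mem_nhdsWithin_of_mem_nhds (ball_mem_nhds x (by positivity)),
        r / 2, by positivity, ?_⟩
      intro x' hx'
      refine ⟨y, fun i => ⟨⟨hyE, fun z hz => (h i).2 z ⟨?_, hz.2⟩⟩, hyE⟩⟩
      have h3 : dist (x' i) (x i) < r / 2 := (dist_pi_lt_iff (by positivity)).1 hx' i
      have h4 := hz.1
      rw [mem_ball] at h4 ⊢
      have := dist_triangle z (x' i) (x i)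
      linarith)
  obtain ⟨r, hr, h⟩ := this
  exact ⟨r, hr, fun x hx => h x (fun i _ => hx i)⟩

theorem main [FiniteDimensional ℝ V] {E : Set V} (hE : IsCompact E) (hconn : IsConnected E)
    (hC : PropertyC (Module.finrank ℝ V + 1) E) : Starshaped E := by
  have hcl := hE.isClosed
  obtain ⟨r, hr, hunif⟩ := uniform hE _ hC
  have hAne : ∀ x ∈ Q E, ∃ y, y ∈ A E x r := by
    intro x hx
    obtain ⟨y, hy⟩ := hunif (fun _ => x) (fun _ => hx)
    exact ⟨y, (hy 0).1⟩
  -- Helly
  have hhelly : (⋂ x : Q E, closure (convexHull ℝ (A E x r))).Nonempty := by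
    apply Convex.helly_theorem_compact' (𝕜 := ℝ)
    · intro x; exact (convex_convexHull ℝ _).closure
    · intro x
      apply Metric.isCompact_of_isClosed_isBounded isClosed_closure
      apply Bornology.IsBounded.closure
      rw [isBounded_convexHull]
      exact hE.isBounded.subset fun y hy => hy.1
    · intro I hI
      rcases I.eq_empty_or_nonempty with h | h
      · subst h; simp
      · have : ∃ g : Fin (Module.finrank ℝ V + 1) → Q E, ∀ x ∈ I, ∃ i, g i = x := by
          obtain ⟨x₀, hx₀⟩ := h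
          let e := I.equivFin
          refine ⟨fun i => if hi : i.1 < I.card then (e.symm ⟨i.1, hi⟩).1 else x₀, ?_⟩
          intro x hx
          refine ⟨⟨(e ⟨x, hx⟩).1, lt_of_lt_of_le (e ⟨x, hx⟩).2 hI⟩, ?_⟩
          simp
        obtain ⟨g, hg⟩ := this
        obtain ⟨y, hy⟩ := hunif (fun i => (g i).1) (fun i => (g i).2)
        refine ⟨y, ?_⟩
        simp only [mem_iInter]
        intro x hx
        obtain ⟨i, hi⟩ := hg x hx
        rw [← hi]
        exact subset_closure (subset_convexHull ℝ _ (hy i).1)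
  obtain ⟨p₀, hp₀⟩ := hhelly
  rw [mem_iInter] at hp₀
  have hgood : ∀ p, (∀ x ∈ Q E, p ∈ closure (convexHull ℝ (A E x r))) → Good E p := by
    intro p hp w hw
    by_cases hwQ : w ∈ Q E
    · refine ⟨r, hr, Or.inr ?_⟩
      exact closure_minimal (convexHull_min (A_flow w r) (flow_convex hcl w r))
        (flow_closed hcl w r) (hp w hwQ)
    · have : ∃ ρ > 0, Convex ℝ (ball w ρ ∩ E) := by
        by_contra hcon
        push Not at hcon
        exact hwQ ⟨hw, hcon⟩
      obtain ⟨ρ, hρ, h⟩ := this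
      exact ⟨ρ, hρ, Or.inl h⟩
  -- choose p in E
  have hp : ∃ p ∈ E, Good E p := by
    rcases (Q E).eq_empty_or_nonempty with h | ⟨x, hx⟩
    · obtain ⟨p, hpE⟩ := hconn.nonempty
      exact ⟨p, hpE, hgood p (by rw [h]; simp)⟩
    · refine ⟨p₀, ?_, hgood p₀ fun x hx => hp₀ ⟨x, hx⟩⟩
      have hG := hgood p₀ fun x hx => hp₀ ⟨x, hx⟩
      -- last point from x towards p₀
      set S := {f : ℝ | f ∈ Icc (0:ℝ) 1 ∧ ∀ g ∈ Icc f 1, p₀ + g • (x - p₀) ∈ E} with hS
      have h1S : (1:ℝ) ∈ S := by
        refine ⟨⟨zero_le_one, le_rfl⟩, fun g hg => ?_⟩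
        have : g = 1 := le_antisymm hg.2 hg.1
        rw [this]; simpa using hx.1
      have hne : S.Nonempty := ⟨1, h1S⟩
      have hbdd : BddBelow S := ⟨0, fun f hf => hf.1.1⟩
      set f₀ := sInf S with hf₀
      have hf₀1 : f₀ ≤ 1 := csInf_le hbdd h1S
      have hf₀0 : 0 ≤ f₀ := le_csInf hne fun f hf => hf.1.1
      have hf₀S : ∀ g ∈ Icc f₀ 1, p₀ + g • (x - p₀) ∈ E := by
        have hcl' : IsClosed {g : ℝ | p₀ + g • (x - p₀) ∈ E} :=
          hcl.preimage (by fun_prop : Continuous fun g : ℝ => p₀ + g • (x - p₀))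
        have hsub : Ioc f₀ 1 ⊆ {g : ℝ | p₀ + g • (x - p₀) ∈ E} := by
          intro g hg
          obtain ⟨f, hf, hfg⟩ := exists_lt_of_csInf_lt hne hg.1
          exact hf.2 g ⟨hfg.le, hg.2⟩
        rcases eq_or_lt_of_le hf₀1 with h | h
        · intro g hg
          have : g = 1 := le_antisymm hg.2 (by rw [← h]; exact hg.1)
          rw [this]; simpa using hx.1
        · have := closure_minimal hsub hcl'
          rw [closure_Ioc h.ne] at this
          exact this
      rcases eq_or_lt_of_le hf₀0 with h0 | h0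
      · have := hf₀S 0 ⟨h0 ▸ le_rfl, zero_le_one⟩
        simpa using this
      · exfalso
        set b := p₀ + f₀ • (x - p₀) with hb
        have hbE : b ∈ E := hf₀S f₀ ⟨le_rfl, hf₀1⟩
        have hnot : ∀ f, 0 ≤ f → f < f₀ → ¬ ∀ g ∈ Icc f f₀, p₀ + g • (x - p₀) ∈ E := by
          intro f hf0 hf h
          have : f ∈ S := by
            refine ⟨⟨hf0, hf.le.trans hf₀1⟩, fun g hg => ?_⟩
            rcases le_total g f₀ with h' | h'
            · exact h g ⟨hg.1, h'⟩
            · exact hf₀S g ⟨h', hg.2⟩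
          exact absurd (csInf_le hbdd this) (not_le.2 hf)
        obtain ⟨ρ, hρ, hloc⟩ := hG b hbE
        rcases hloc with hconv | hflow
        · -- convex case
          obtain ⟨D, hD⟩ := hE.isBounded.subset_closedBall b
          set s := min 1 (ρ / (2 * (|D| + 1))) with hs
          have hspos : 0 < s := by positivity
          have hs1 : s ≤ 1 := min_le_left _ _
          have hs2 : s * (|D| + 1) ≤ ρ / 2 := by
            have := min_le_right 1 (ρ / (2 * (|D| + 1)))
            have h3 : s * (|D| + 1) ≤ (ρ / (2 * (|D| + 1))) * (|D| + 1) :=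
              mul_le_mul_of_nonneg_right this (by positivity)
            have h4 : (ρ / (2 * (|D| + 1))) * (|D| + 1) = ρ / 2 := by field_simp
            linarith
          have hsubA : A E x r ⊆ {y | b + s • (y - b) ∈ closedBall b (ρ / 2) ∩ (ball b ρ ∩ E)} := by
            intro y hy
            have hyx : segment ℝ x y ⊆ E := by
              rw [segment_symm]
              exact hy.2 x ⟨mem_ball_self hr, hx.1⟩
            have hby := lemT hcl p₀ hG x y hyx f₀ h0 hf₀1 hf₀S
            rw [segment_eq_image'] at hby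
            have h5 : b + s • (y - b) ∈ E := hby ⟨s, ⟨hspos.le, hs1⟩, rfl⟩
            have h6 : dist (b + s • (y - b)) b ≤ ρ / 2 := by
              rw [dist_eq_norm, add_sub_cancel_left, norm_smul, Real.norm_of_nonneg hspos.le]
              have h7 : ‖y - b‖ ≤ |D| + 1 := by
                have := hD hy.1
                rw [mem_closedBall, dist_eq_norm] at this
                have := le_abs_self D
                linarith
              exact (mul_le_mul_of_nonneg_left h7 hspos.le).trans hs2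
            exact ⟨h6, lt_of_le_of_lt h6 (by linarith), h5⟩
          have hconv2 : Convex ℝ {y | b + s • (y - b) ∈ closedBall b (ρ / 2) ∩ (ball b ρ ∩ E)} := by
            have hc2 : Convex ℝ (closedBall b (ρ / 2) ∩ (ball b ρ ∩ E)) :=
              (convex_closedBall _ _).inter hconv
            intro y₁ h₁ y₂ h₂ a c ha hc hac
            have := hc2 h₁ h₂ ha hc hac
            show b + s • (a • y₁ + c • y₂ - b) ∈ closedBall b (ρ / 2) ∩ (ball b ρ ∩ E)
            convert this using 1
            have e : c = 1 - a := by linarith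
            rw [e]; module
          have heq2 : closedBall b (ρ / 2) ∩ (ball b ρ ∩ E) = closedBall b (ρ / 2) ∩ E := by
            ext z; constructor
            · rintro ⟨h1, _, h2⟩; exact ⟨h1, h2⟩
            · rintro ⟨h1, h2⟩
              exact ⟨h1, closedBall_subset_ball (by linarith) h1, h2⟩
          have hclosed2 : IsClosed {y | b + s • (y - b) ∈ closedBall b (ρ / 2) ∩ (ball b ρ ∩ E)} := by
            rw [heq2]
            exact (isClosed_closedBall.inter hcl).preimage
              (by fun_prop : Continuous fun y : V => b + s • (y - b))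
          have hpm := closure_minimal (convexHull_min hsubA hconv2) hclosed2 (hp₀ ⟨x, hx⟩)
          have hpm2 : b + s • (p₀ - b) ∈ ball b ρ ∩ E := hpm.2
          have hpeq : b + s • (p₀ - b) = p₀ + ((1 - s) * f₀) • (x - p₀) := by
            rw [hb]; module
          rw [hpeq] at hpm2
          have hk : (1 - s) * f₀ < f₀ := by nlinarith
          have hk0 : 0 ≤ (1 - s) * f₀ := by apply mul_nonneg <;> linarith
          generalize (1 - s) * f₀ = k at hpm2 hk hk0
          apply hnot k hk0 hk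
          intro g hg
          have hpos : 0 < f₀ - k := by linarith
          have := hconv hpm2 ⟨mem_ball_self hρ, hbE⟩ (a := (f₀ - g) / (f₀ - k))
            (b := (g - k) / (f₀ - k))
            (by apply div_nonneg <;> linarith [hg.2])
            (by apply div_nonneg <;> linarith [hg.1]) (by field_simp; ring)
          have heq : ((f₀ - g) / (f₀ - k)) • (p₀ + k • (x - p₀)) +
              ((g - k) / (f₀ - k)) • b = p₀ + g • (x - p₀) := by
            have hA : ∀ α β : ℝ, α + β = 1 → α * k + β * f₀ = g →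
                α • (p₀ + k • (x - p₀)) + β • b = p₀ + g • (x - p₀) := by
              intro α β k1 k2
              rw [hb]
              have l1 : α • (p₀ + k • (x - p₀)) + β • (p₀ + f₀ • (x - p₀))
                = (α + β) • p₀ + (α * k + β * f₀) • (x - p₀) := by module
              rw [l1, k1, k2]; module
            apply hA
            · field_simp; ring
            · field_simp; ring
          rw [heq] at this
          exact this.2
        · -- flow case
          have hc : ContinuousAt (fun g : ℝ => p₀ + g • (x - p₀)) f₀ := by fun_prop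
          obtain ⟨η, hη, hηball⟩ := Metric.continuousAt_iff.1 hc ρ hρ
          set ε := min η f₀ / 2 with hε
          have hεpos : 0 < ε := by positivity
          have hε1 : 2 * ε ≤ η := by have := min_le_left η f₀; linarith
          have hε2 : 2 * ε ≤ f₀ := by have := min_le_right η f₀; linarith
          apply hnot (f₀ - ε) (by linarith) (by linarith)
          intro g hg
          have heq : b + (1 - g / f₀) • (p₀ - b) = p₀ + g • (x - p₀) := by
            rw [hb]
            have : g = (g / f₀) * f₀ := by field_simp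
            generalize (g / f₀) = k at this
            rw [this]; module
          have hgpos : 0 ≤ g := by linarith [hg.1]
          have := hflow _ ⟨mem_ball_self hρ, hbE⟩ (1 - g / f₀)
            ⟨by rw [sub_nonneg, div_le_one h0]; exact hg.2, by
              have : 0 ≤ g / f₀ := by positivity
              linarith⟩ (by
              rw [heq]
              apply hηball
              rw [Real.dist_eq, abs_lt]
              constructor <;> linarith [hg.1, hg.2])
          rwa [heq] at this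
  obtain ⟨p, hpE, hG⟩ := hp
  refine ⟨p, hpE, ?_⟩
  have hall : ∀ z ∈ E, segment ℝ p z ⊆ E := by
    intro z hz
    have := hconn.isPreconnected.induction₂' (fun a b => segment ℝ p a ⊆ E → segment ℝ p b ⊆ E)
      (by
        intro w hw
        by_cases hwQ : w ∈ Q E
        · obtain ⟨y₀, hy₀⟩ := hAne w hwQ
          have hwy : segment ℝ y₀ w ⊆ E := hy₀.2 w ⟨mem_ball_self hr, hw⟩
          have hev : ∀ᶠ y in 𝓝[E] w, y ∈ ball w r :=
            eventually_nhdsWithin_of_eventually_nhds (ball_mem_nhds w hr)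
          filter_upwards [hev, self_mem_nhdsWithin] with y hy hyE
          have hyy : segment ℝ y₀ y ⊆ E := hy₀.2 y ⟨hy, hyE⟩
          constructor
          · intro h
            exact lemA hcl p hG y₀ y hyy (lemA hcl p hG w y₀ (by rwa [segment_symm]) h)
          · intro h
            exact lemA hcl p hG y₀ w hwy (lemA hcl p hG y y₀ (by rwa [segment_symm]) h)
        · have : ∃ ρ > 0, Convex ℝ (ball w ρ ∩ E) := by
            by_contra hcon
            push Not at hcon
            exact hwQ ⟨hw, hcon⟩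
          obtain ⟨ρ, hρ, hconv⟩ := this
          have hev : ∀ᶠ y in 𝓝[E] w, y ∈ ball w ρ :=
            eventually_nhdsWithin_of_eventually_nhds (ball_mem_nhds w hρ)
          filter_upwards [hev, self_mem_nhdsWithin] with y hy hyE
          have hwy : segment ℝ w y ⊆ E :=
            (hconv.segment_subset ⟨mem_ball_self hρ, hw⟩ ⟨hy, hyE⟩).trans inter_subset_right
          constructor
          · intro h
            exact lemA hcl p hG w y hwy h
          · intro h
            exact lemA hcl p hG y w (by rwa [segment_symm]) h)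
      (by intro a b c _ _ _ hab hbc h; exact hbc (hab h)) hpE hz
    apply this
    rw [segment_same]
    exact singleton_subset_iff.2 hpE
  exact fun z hz => ⟨hpE, hz, hall z hz⟩

/-- **Main result.** A nonempty compact connected set in `ℝ^d` with property `C_{d+1}` is
starshaped. -/
theorem result (d : ℕ) (E : Set (EuclideanSpace ℝ (Fin d))) (hE : IsCompact E)
    (hconn : IsConnected E) (hC : PropertyC (d + 1) E) : Starshaped E := by
  apply main hE hconn
  rwa [finrank_euclideanSpace_fin]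

end Helper823.Lnc
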